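import Pool.Agent.Lib_helper44.G4.Defs

/-!
# G4, block DEN: there are many pairs (no citations)
-/

namespace Pool.Agent.G4

open Filter Topology

/-- number of primitive characters modulo `d` -/
noncomputable def den_prm (d : ℕ) : ℕ := Nat.card {χ : DirichletCharacter ℂ d // χ.IsPrimitive}

theorem den_card_char (q : ℕ) [NeZero q] : Nat.card (DirichletCharacter ℂ q) = q.totient :=
  DirichletCharacter.card_eq_totient_of_hasEnoughRootsOfUnity ℂ q

theorem den_prm_le (d : ℕ) [NeZero d] : den_prm d ≤ d := by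
  have h1 : den_prm d ≤ Nat.card (DirichletCharacter ℂ d) :=
    Nat.card_le_card_of_injective (fun χ : {χ : DirichletCharacter ℂ d // χ.IsPrimitive} => χ.1)
      Subtype.val_injective
  rw [den_card_char] at h1
  exact h1.trans (Nat.totient_le d)

theorem den_exists_prim {q d : ℕ} (χ : DirichletCharacter ℂ q) (h : χ.conductor = d) :
    ∃ χ₀ : DirichletCharacter ℂ d, χ₀.IsPrimitive ∧ ∃ hd : d ∣ q,
      DirichletCharacter.changeLevel hd χ₀ = χ := by
  subst h
  exact ⟨χ.primitiveCharacter, χ.primitiveCharacter_isPrimitive, χ.conductor_dvd_level,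
    χ.changeLevel_primitiveCharacter⟩

theorem den_totient_le (q : ℕ) [NeZero q] : q.totient ≤ ∑ d ∈ q.divisors, den_prm d := by
  classical
  rw [← den_card_char q, Nat.card_eq_fintype_card, ← Finset.card_univ]
  have h1 : ∀ χ ∈ (Finset.univ : Finset (DirichletCharacter ℂ q)),
      χ.conductor ∈ q.divisors := by
    intro χ _
    rw [Nat.mem_divisors]
    exact ⟨χ.conductor_dvd_level, NeZero.ne q⟩
  rw [Finset.card_eq_sum_card_fiberwise h1]
  apply Finset.sum_le_sum
  intro d hd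
  have hd0 : d ≠ 0 := by
    rintro rfl
    simp at hd
  have : NeZero d := ⟨hd0⟩
  unfold den_prm
  have h2 : ((Finset.univ : Finset (DirichletCharacter ℂ q)).filter
      (fun χ => χ.conductor = d)).card = Nat.card {χ : DirichletCharacter ℂ q // χ.conductor = d} := by
    rw [Nat.card_eq_fintype_card, Fintype.card_subtype]
  rw [h2]
  refine Nat.card_le_card_of_injective (fun χ : {χ : DirichletCharacter ℂ q // χ.conductor = d} =>
    (⟨(den_exists_prim χ.1 χ.2).choose, (den_exists_prim χ.1 χ.2).choose_spec.1⟩ :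
      {χ : DirichletCharacter ℂ d // χ.IsPrimitive})) ?_
  intro χ ψ h
  have h3 := Subtype.ext_iff.1 h
  simp only at h3
  obtain ⟨hd1, e1⟩ := (den_exists_prim χ.1 χ.2).choose_spec.2
  obtain ⟨hd2, e2⟩ := (den_exists_prim ψ.1 ψ.2).choose_spec.2
  apply Subtype.ext
  rw [← e1, ← e2, h3]

theorem den_card_pairs (N Q : ℕ) : (pairs N Q).card =
    ∑ d ∈ (Finset.Icc 2 Q).filter (fun d => d.Coprime N), den_prm d := by
  classical
  unfold pairs
  rw [Finset.card_sigma]
  symm
  refine Finset.sum_bij' (fun d _ => d - 2) (fun k _ => k + 2) ?_ ?_ ?_ ?_ ?_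
  · intro d hd
    rw [Finset.mem_filter, Finset.mem_Icc] at hd
    rw [Finset.mem_filter, Finset.mem_range]
    refine ⟨by omega, ?_⟩
    rw [show d - 2 + 2 = d by omega]
    exact hd.2
  · intro k hk
    rw [Finset.mem_filter, Finset.mem_range] at hk
    rw [Finset.mem_filter, Finset.mem_Icc]
    exact ⟨by omega, hk.2⟩
  · intro d hd
    rw [Finset.mem_filter, Finset.mem_Icc] at hd
    omega
  · intro k hk
    omega
  · intro d hd
    rw [Finset.mem_filter, Finset.mem_Icc] at hd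
    obtain ⟨k, rfl⟩ : ∃ k, d = k + 2 := ⟨d - 2, by omega⟩
    unfold den_prm
    rw [Nat.card_eq_fintype_card, Fintype.card_subtype]
    rfl

/-- sums of totients over numbers coprime to `N` -/
noncomputable def den_T (N Q : ℕ) : ℕ :=
  ∑ q ∈ (Finset.Icc 1 Q).filter (fun q => q.Coprime N), q.totient

theorem den_T_le (N Q : ℕ) : den_T N Q ≤
    ∑ d ∈ (Finset.Icc 1 Q).filter (fun d => d.Coprime N), den_prm d * (Q / d) := by
  classical
  unfold den_T
  have h1 : ∀ q ∈ (Finset.Icc 1 Q).filter (fun q => q.Coprime N), q.totient ≤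
      ∑ d ∈ (Finset.Icc 1 Q).filter (fun d => d.Coprime N), if d ∣ q then den_prm d else 0 := by
    intro q hq
    rw [Finset.mem_filter, Finset.mem_Icc] at hq
    have : NeZero q := ⟨by omega⟩
    refine (den_totient_le q).trans ?_
    rw [← Finset.sum_filter]
    apply Finset.sum_le_sum_of_subset
    intro d hd
    rw [Nat.mem_divisors] at hd
    rw [Finset.mem_filter, Finset.mem_filter, Finset.mem_Icc]
    have h2 := Nat.le_of_dvd (by omega) hd.1
    have h3 := Nat.pos_of_dvd_of_pos hd.1 (by omega)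
    exact ⟨⟨⟨h3, by omega⟩, Nat.Coprime.coprime_dvd_left hd.1 hq.2⟩, hd.1⟩
  refine (Finset.sum_le_sum h1).trans ?_
  rw [Finset.sum_comm]
  apply Finset.sum_le_sum
  intro d hd
  rw [Finset.mem_filter, Finset.mem_Icc] at hd
  rw [← Finset.sum_filter, Finset.sum_const, smul_eq_mul, mul_comm]
  apply Nat.mul_le_mul_left
  rw [← Nat.Ioc_filter_dvd_card_eq_div]
  apply Finset.card_le_card
  intro q hq
  rw [Finset.mem_filter, Finset.mem_filter, Finset.mem_Icc] at hq
  rw [Finset.mem_filter, Finset.mem_Ioc]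
  exact ⟨⟨by omega, by omega⟩, hq.2⟩

theorem den_T_le' (N Q : ℕ) {δ : ℝ} (hδ : 0 < δ) :
    (den_T N Q : ℝ) ≤ Q + δ * Q ^ 2 + δ⁻¹ * (pairs N Q).card := by
  classical
  rcases Nat.eq_zero_or_pos Q with h0 | hQ
  · subst h0
    unfold den_T
    simp
  have h1 : (den_T N Q : ℝ) ≤ ∑ d ∈ (Finset.Icc 1 Q).filter (fun d => d.Coprime N),
      (den_prm d : ℝ) * ((Q / d : ℕ) : ℝ) := by
    exact_mod_cast den_T_le N Q
  have h2 : (Finset.Icc 1 Q).filter (fun d => d.Coprime N) ⊆
      insert 1 ((Finset.Icc 2 Q).filter (fun d => d.Coprime N)) := by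
    intro d hd
    rw [Finset.mem_filter, Finset.mem_Icc] at hd
    rw [Finset.mem_insert, Finset.mem_filter, Finset.mem_Icc]
    by_cases h : d = 1
    · exact Or.inl h
    · exact Or.inr ⟨⟨by omega, by omega⟩, hd.2⟩
  have h3 : (den_T N Q : ℝ) ≤ ∑ d ∈ insert 1 ((Finset.Icc 2 Q).filter (fun d => d.Coprime N)),
      (den_prm d : ℝ) * ((Q / d : ℕ) : ℝ) :=
    h1.trans (Finset.sum_le_sum_of_subset_of_nonneg h2 fun d _ _ => by positivity)
  rw [Finset.sum_insert (by simp)] at h3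
  have h4 : (den_prm 1 : ℝ) * ((Q / 1 : ℕ) : ℝ) ≤ Q := by
    have : (den_prm 1 : ℝ) ≤ 1 := by exact_mod_cast den_prm_le 1
    rw [Nat.div_one]
    have hq : (0 : ℝ) ≤ Q := Nat.cast_nonneg Q
    nlinarith
  have h5 : ∀ d ∈ (Finset.Icc 2 Q).filter (fun d => d.Coprime N),
      (den_prm d : ℝ) * ((Q / d : ℕ) : ℝ) ≤ (if (d : ℝ) ≤ δ * Q then (Q : ℝ) else 0) +
        δ⁻¹ * den_prm d := by
    intro d hd
    rw [Finset.mem_filter, Finset.mem_Icc] at hd
    have : NeZero d := ⟨by omega⟩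
    have hd0 : (0 : ℝ) < d := by
      have : 0 < d := by omega
      exact_mod_cast this
    have e1 : ((Q / d : ℕ) : ℝ) ≤ Q / d := Nat.cast_div_le
    have e2 : (den_prm d : ℝ) ≤ d := by exact_mod_cast den_prm_le d
    have e3 : (0 : ℝ) ≤ den_prm d := by positivity
    split_ifs with h
    · have : (den_prm d : ℝ) * ((Q / d : ℕ) : ℝ) ≤ d * (Q / d) := by gcongr
      rw [mul_div_cancel₀ _ hd0.ne'] at this
      have : 0 ≤ δ⁻¹ * (den_prm d : ℝ) := by positivity
      linarith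
    · push Not at h
      rw [zero_add, mul_comm]
      have : ((Q / d : ℕ) : ℝ) ≤ δ⁻¹ := by
        refine e1.trans ?_
        rw [div_le_iff₀ hd0, ← div_eq_inv_mul, le_div_iff₀ hδ]
        linarith
      gcongr
  have h6 := Finset.sum_le_sum h5
  rw [Finset.sum_add_distrib, ← Finset.mul_sum] at h6
  have h7 : ∑ d ∈ (Finset.Icc 2 Q).filter (fun d => d.Coprime N),
      (if (d : ℝ) ≤ δ * Q then (Q : ℝ) else 0) ≤ δ * Q ^ 2 := by
    rw [← Finset.sum_filter, Finset.sum_const, nsmul_eq_mul]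
    have e1 : ((((Finset.Icc 2 Q).filter (fun d => d.Coprime N)).filter
        (fun d : ℕ => (d : ℝ) ≤ δ * Q)).card : ℝ) ≤ δ * Q := by
      have e2 : ((Finset.Icc 2 Q).filter (fun d => d.Coprime N)).filter
          (fun d : ℕ => (d : ℝ) ≤ δ * Q) ⊆ Finset.Icc 1 ⌊δ * Q⌋₊ := by
        intro d hd
        rw [Finset.mem_filter, Finset.mem_filter, Finset.mem_Icc] at hd
        rw [Finset.mem_Icc]
        exact ⟨by omega, Nat.le_floor hd.2⟩
      have e3 := Finset.card_le_card e2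
      rw [Nat.card_Icc, Nat.add_sub_cancel] at e3
      calc _ ≤ ((⌊δ * Q⌋₊ : ℕ) : ℝ) := by exact_mod_cast e3
        _ ≤ δ * Q := Nat.floor_le (by positivity)
    have hq : (0 : ℝ) ≤ Q := Nat.cast_nonneg Q
    nlinarith
  have h8 : (((pairs N Q).card : ℕ) : ℝ) =
      ∑ d ∈ (Finset.Icc 2 Q).filter (fun d => d.Coprime N), (den_prm d : ℝ) := by
    rw [den_card_pairs]
    push_cast
    rfl
  rw [h8]
  linarith

/-! ### the lower bound for the sum of totients -/

theorem den_count_a (H p : ℕ) : ((Finset.Icc 1 H).filter (fun a => p ∣ a)).card = H / p := by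
  rw [← Nat.Ioc_filter_dvd_card_eq_div]
  congr 1

theorem den_count_j (N H p : ℕ) (hp : p.Prime) :
    ((Finset.Ico H (2 * H)).filter (fun j => p ∣ 1 + N * j)).card ≤ H / p + 2 := by
  classical
  by_cases hc : p.Coprime N
  · have h1 : ((Finset.Ico H (2 * H)).filter (fun j => p ∣ 1 + N * j)).card ≤
        (Finset.Icc (H / p) ((2 * H) / p)).card := by
      apply Finset.card_le_card_of_injOn (fun j => j / p)
      · intro j hj
        rw [Finset.mem_coe, Finset.mem_filter, Finset.mem_Ico] at hj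
        rw [Finset.mem_coe, Finset.mem_Icc]
        exact ⟨Nat.div_le_div_right hj.1.1, Nat.div_le_div_right (by omega)⟩
      · intro j hj j' hj' h
        rw [Finset.mem_coe, Finset.mem_filter] at hj hj'
        simp only at h
        have e1 : j % p = j' % p := by
          have e2 : N * j ≡ N * j' [MOD p] := by
            have e3 : 1 + N * j ≡ 1 + N * j' [MOD p] :=
              ((Nat.modEq_zero_iff_dvd.2 hj.2).trans (Nat.modEq_zero_iff_dvd.2 hj'.2).symm)
            exact Nat.ModEq.add_left_cancel' 1 e3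
          exact Nat.ModEq.cancel_left_of_coprime hc e2
        rw [← Nat.div_add_mod j p, ← Nat.div_add_mod j' p, h, e1]
    rw [Nat.card_Icc] at h1
    have h2 : 2 * H / p ≤ 2 * (H / p) + 1 := by
      have hp0 := hp.pos
      rw [Nat.div_le_iff_le_mul_add_pred hp0]
      have h3 := Nat.div_add_mod H p
      have h4 := Nat.mod_lt H hp0
      have h5 : p * (2 * (H / p) + 1) = 2 * (p * (H / p)) + p := by ring
      omega
    omega
  · have h1 : (Finset.Ico H (2 * H)).filter (fun j => p ∣ 1 + N * j) = ∅ := by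
      rw [Finset.filter_eq_empty_iff]
      intro j _ hj
      have h2 : p ∣ N := by
        by_contra h
        exact hc ((Nat.Prime.coprime_iff_not_dvd hp).2 h)
      have h3 : p ∣ 1 := (Nat.dvd_add_left (dvd_mul_of_dvd_left h2 j)).1 hj
      exact hp.one_lt.ne' (Nat.dvd_one.1 h3)
    rw [h1]
    simp

theorem den_totient_ge (q H : ℕ) (h : H < q) :
    H ≤ q.totient + ∑ p ∈ (Finset.Icc 2 H).filter (fun p => p.Prime ∧ p ∣ q), H / p := by
  classical
  have h1 : Finset.Icc 1 H ⊆ ((Finset.range q).filter q.Coprime) ∪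
      ((Finset.Icc 2 H).filter (fun p => p.Prime ∧ p ∣ q)).biUnion
        (fun p => (Finset.Icc 1 H).filter (fun a => p ∣ a)) := by
    intro a ha
    rw [Finset.mem_Icc] at ha
    rw [Finset.mem_union, Finset.mem_filter, Finset.mem_range, Finset.mem_biUnion]
    by_cases hc : q.Coprime a
    · left
      exact ⟨by omega, hc⟩
    · right
      obtain ⟨p, hp, hpq, hpa⟩ := Nat.Prime.not_coprime_iff_dvd.1 hc
      refine ⟨p, ?_, ?_⟩
      · rw [Finset.mem_filter, Finset.mem_Icc]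
        have := Nat.le_of_dvd (by omega) hpa
        exact ⟨⟨hp.two_le, by omega⟩, hp, hpq⟩
      · rw [Finset.mem_filter, Finset.mem_Icc]
        exact ⟨ha, hpa⟩
  have h2 := (Finset.card_le_card h1).trans (Finset.card_union_le _ _)
  rw [Nat.card_Icc, Nat.add_sub_cancel] at h2
  refine h2.trans ?_
  rw [Nat.totient_eq_card_coprime]
  gcongr
  refine Finset.card_biUnion_le.trans ?_
  apply Finset.sum_le_sum
  intro p _
  exact (den_count_a H p).le

theorem den_sum_j (N H : ℕ) (hN : 0 < N) :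
    H * H ≤ (∑ j ∈ Finset.Ico H (2 * H), (1 + N * j).totient) +
      ∑ p ∈ Finset.Icc 2 H, (H / p + 2) * (H / p) := by
  classical
  have h1 : ∀ j ∈ Finset.Ico H (2 * H), H ≤ (1 + N * j).totient +
      ∑ p ∈ Finset.Icc 2 H, if p.Prime ∧ p ∣ 1 + N * j then H / p else 0 := by
    intro j hj
    rw [Finset.mem_Ico] at hj
    rw [← Finset.sum_filter]
    apply den_totient_ge
    nlinarith [hj.1]
  have h2 := Finset.sum_le_sum h1
  rw [Finset.sum_const, Nat.card_Ico, show 2 * H - H = H by omega, smul_eq_mul,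
    Finset.sum_add_distrib, Finset.sum_comm] at h2
  refine h2.trans ?_
  gcongr with p hp
  rw [← Finset.sum_filter, Finset.sum_const, smul_eq_mul]
  by_cases hp' : p.Prime
  · apply Nat.mul_le_mul_right
    refine (Finset.card_le_card ?_).trans (den_count_j N H p hp')
    intro j hj
    rw [Finset.mem_filter] at hj ⊢
    exact ⟨hj.1, hj.2.2⟩
  · have h3 : (Finset.Ico H (2 * H)).filter (fun j => p.Prime ∧ p ∣ 1 + N * j) = ∅ := by
      rw [Finset.filter_eq_empty_iff]
      intro j _ h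
      exact hp' h.1
    rw [h3]
    simp

theorem den_sum_sq (Y : ℕ) : ∑ d ∈ Finset.Icc 2 Y, 1 / (d : ℝ) ^ 2 ≤ 3 / 4 := by
  have h7 : ∀ Y : ℕ, ∑ d ∈ Finset.Icc 2 Y, 1 / (d : ℝ) ^ 2 ≤
      (3 / 4 : ℝ) - (if Y < 2 then (3 / 4 : ℝ) else 1 / (Y : ℝ)) := by
    intro Y
    induction Y with
    | zero => simp
    | succ n ih =>
      rcases Nat.lt_or_ge n 1 with hn | hn
      · have : n = 0 := by omega
        subst this
        simp
      · rw [Finset.sum_Icc_succ_top (by omega)]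
        rcases Nat.lt_or_ge n 2 with hn2 | hn2
        · have : n = 1 := by omega
          subst this
          norm_num
        · rw [if_neg (by omega)] at ih ⊢
          have hn0 : (0 : ℝ) < n := by positivity
          have h8 : 1 / ((n + 1 : ℕ) : ℝ) ^ 2 ≤ 1 / (n : ℝ) - 1 / ((n + 1 : ℕ) : ℝ) := by
            push_cast
            rw [div_sub_div _ _ (by positivity) (by positivity),
              div_le_div_iff₀ (by positivity) (by positivity)]
            nlinarith
          linarith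
  refine (h7 Y).trans ?_
  split_ifs
  · norm_num
  · have : (0 : ℝ) ≤ 1 / Y := by positivity
    linarith

theorem den_sum_inv (Y : ℕ) : ∑ d ∈ Finset.Icc 2 Y, 1 / (d : ℝ) ≤ 1 + Real.log Y := by
  have h1 := harmonic_le_one_add_log Y
  have h2 : ∑ d ∈ Finset.Icc 2 Y, 1 / (d : ℝ) ≤ ((harmonic Y : ℚ) : ℝ) := by
    rw [harmonic_eq_sum_Icc]
    push_cast
    have h3 : Finset.Icc 2 Y ⊆ Finset.Icc 1 Y := Finset.Icc_subset_Icc (by norm_num) le_rfl
    calc ∑ d ∈ Finset.Icc 2 Y, 1 / (d : ℝ) ≤ ∑ d ∈ Finset.Icc 1 Y, 1 / (d : ℝ) :=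
          Finset.sum_le_sum_of_subset_of_nonneg h3 fun d _ _ => by positivity
      _ = _ := by simp [one_div]
  exact h2.trans h1

theorem den_sum_bad (H : ℕ) : ((∑ p ∈ Finset.Icc 2 H, (H / p + 2) * (H / p) : ℕ) : ℝ) ≤
    3 / 4 * (H : ℝ) ^ 2 + 2 * H * (1 + Real.log H) := by
  push_cast
  have h1 : ∀ p ∈ Finset.Icc 2 H, ((((H / p : ℕ) : ℝ)) + 2) * ((H / p : ℕ) : ℝ) ≤
      (H : ℝ) ^ 2 * (1 / (p : ℝ) ^ 2) + 2 * H * (1 / (p : ℝ)) := by
    intro p hp
    rw [Finset.mem_Icc] at hp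
    have hp0 : (0 : ℝ) < p := by
      have : 0 < p := by omega
      exact_mod_cast this
    have e1 : ((H / p : ℕ) : ℝ) ≤ H / p := Nat.cast_div_le
    have e0 : (0 : ℝ) ≤ ((H / p : ℕ) : ℝ) := by positivity
    have e2 : (0 : ℝ) ≤ (H : ℝ) / p := by positivity
    calc _ ≤ ((H : ℝ) / p + 2) * (H / p) := by gcongr
      _ = _ := by ring
  refine (Finset.sum_le_sum h1).trans ?_
  rw [Finset.sum_add_distrib, ← Finset.mul_sum, ← Finset.mul_sum]
  have h2 := den_sum_sq H
  have h3 := den_sum_inv H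
  have h4 : (0 : ℝ) ≤ (H : ℝ) ^ 2 := by positivity
  have h5 : (0 : ℝ) ≤ 2 * (H : ℝ) := by positivity
  nlinarith [mul_le_mul_of_nonneg_left h2 h4, mul_le_mul_of_nonneg_left h3 h5]

theorem den_T_ge (N H Q : ℕ) (hN : 0 < N) (h : 2 * N * H ≤ Q) :
    ∑ j ∈ Finset.Ico H (2 * H), (1 + N * j).totient ≤ den_T N Q := by
  classical
  unfold den_T
  have h1 : ∑ j ∈ Finset.Ico H (2 * H), (1 + N * j).totient =
      ∑ q ∈ (Finset.Ico H (2 * H)).image (fun j => 1 + N * j), q.totient := by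
    rw [Finset.sum_image]
    intro a _ b _ hab
    simp only at hab
    have : N * a = N * b := by omega
    exact Nat.eq_of_mul_eq_mul_left hN this
  rw [h1]
  apply Finset.sum_le_sum_of_subset
  intro q hq
  rw [Finset.mem_image] at hq
  obtain ⟨j, hj, rfl⟩ := hq
  rw [Finset.mem_Ico] at hj
  rw [Finset.mem_filter, Finset.mem_Icc]
  refine ⟨⟨by omega, ?_⟩, ?_⟩
  · have h2 : N * j + N ≤ N * (2 * H) := by
      have : N * (j + 1) ≤ N * (2 * H) := Nat.mul_le_mul_left N (by omega)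
      linarith
    nlinarith
  · rw [add_comm]
    exact (Nat.coprime_mul_left_add_left 1 N j).2 (Nat.coprime_one_left N)

theorem den_T_lower {N : ℕ} (hN : 0 < N) : ∃ c : ℝ, 0 < c ∧ ∃ Q₀ : ℕ, ∀ Q : ℕ, Q₀ ≤ Q →
    c * (Q : ℝ) ^ 2 ≤ den_T N Q := by
  have hN' : (0 : ℝ) < N := by exact_mod_cast hN
  -- log
  obtain ⟨H₀, hH₀⟩ : ∃ H₀ : ℕ, ∀ H : ℕ, H₀ ≤ H → 2 * (1 + Real.log H) ≤ (H : ℝ) / 8 := by
    have h1 : Tendsto (fun x : ℝ => (1 + Real.log x) / x) atTop (𝓝 0) := by
      have e1 : Tendsto (fun x : ℝ => 1 / x) atTop (𝓝 0) := by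
        simpa using tendsto_inv_atTop_zero (𝕜 := ℝ)
      have e2 : Tendsto (fun x : ℝ => Real.log x / x) atTop (𝓝 0) := by
        have := Real.tendsto_pow_log_div_mul_add_atTop 1 0 1 one_ne_zero
        simpa using this
      have := e1.add e2
      simp only [add_zero] at this
      refine this.congr fun x => ?_
      rw [← add_div]
    have h2 := h1.comp tendsto_natCast_atTop_atTop
    have h3 := h2.eventually (gt_mem_nhds (show (0 : ℝ) < 1 / 16 by norm_num))
    obtain ⟨H₁, hH₁⟩ := eventually_atTop.1 h3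
    refine ⟨max H₁ 1, fun H hH => ?_⟩
    have h4 := hH₁ H ((le_max_left _ _).trans hH)
    have h5 : (0 : ℝ) < H := by
      have : 0 < H := lt_of_lt_of_le one_pos ((le_max_right _ _).trans hH)
      exact_mod_cast this
    simp only [Function.comp_apply] at h4
    rw [div_lt_iff₀ h5] at h4
    linarith
  refine ⟨1 / (128 * (N : ℝ) ^ 2), by positivity, max (4 * N) (2 * N * (H₀ + 1)), fun Q hQ => ?_⟩
  set H : ℕ := Q / (2 * N) with hH
  have h1 : 2 * N * H ≤ Q := Nat.mul_div_le Q (2 * N)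
  have h2 : (Q : ℝ) / (4 * N) ≤ H := by
    have e1 : Q < 2 * N * (H + 1) := by
      rw [hH]
      exact Nat.lt_mul_div_succ Q (by omega)
    have e2 : (Q : ℝ) < 2 * N * (H + 1) := by exact_mod_cast e1
    have e3 : (4 * N : ℝ) ≤ Q := by exact_mod_cast (le_max_left _ _).trans hQ
    rw [div_le_iff₀ (by positivity)]
    nlinarith
  have h3 : H₀ ≤ H := by
    rw [hH, Nat.le_div_iff_mul_le (by omega)]
    have := (le_max_right _ _).trans hQ
    nlinarith
  have h4 : (H : ℝ) ^ 2 / 8 ≤ (∑ j ∈ Finset.Ico H (2 * H), (1 + N * j).totient : ℕ) := by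
    have e1 : ((H * H : ℕ) : ℝ) ≤ ((∑ j ∈ Finset.Ico H (2 * H), (1 + N * j).totient : ℕ) : ℝ) +
        ((∑ p ∈ Finset.Icc 2 H, (H / p + 2) * (H / p) : ℕ) : ℝ) := by
      exact_mod_cast den_sum_j N H hN
    have e2 := den_sum_bad H
    have e3 := hH₀ H h3
    have e4 : (0 : ℝ) ≤ H := Nat.cast_nonneg H
    push_cast at e1 e2 ⊢
    nlinarith [mul_le_mul_of_nonneg_left e3 e4]
  have h5 : ((∑ j ∈ Finset.Ico H (2 * H), (1 + N * j).totient : ℕ) : ℝ) ≤ den_T N Q := by
    exact_mod_cast den_T_ge N H Q hN h1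
  refine le_trans ?_ (h4.trans h5)
  have h6 : ((Q : ℝ) / (4 * N)) ^ 2 ≤ (H : ℝ) ^ 2 := pow_le_pow_left₀ (by positivity) h2 2
  calc 1 / (128 * (N : ℝ) ^ 2) * (Q : ℝ) ^ 2 = ((Q : ℝ) / (4 * N)) ^ 2 / 8 := by
        field_simp
        ring
    _ ≤ _ := by gcongr

/-- DEN: there are many pairs -/
theorem many_pairs_pr {N : ℕ} (hN : 0 < N) : ∃ c : ℝ, 0 < c ∧ ∃ Q₀ : ℕ, ∀ Q : ℕ, Q₀ ≤ Q →
    c * Q ^ 2 ≤ (pairs N Q).card := by
  obtain ⟨c, hc, Q₀, h⟩ := den_T_lower hN
  refine ⟨c / 4 * (c / 2), by positivity, max Q₀ (⌈4 / c⌉₊), fun Q hQ => ?_⟩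
  have h1 := h Q ((le_max_left _ _).trans hQ)
  have h2 := den_T_le' N Q (δ := c / 4) (by positivity)
  have h3 : 4 / c ≤ Q := (Nat.le_ceil _).trans (by exact_mod_cast (le_max_right _ _).trans hQ)
  have h4 : (Q : ℝ) ≤ c / 4 * Q ^ 2 := by
    rw [div_le_iff₀ hc] at h3
    have hq : (0 : ℝ) ≤ Q := Nat.cast_nonneg Q
    nlinarith
  have h5 : c / 2 * (Q : ℝ) ^ 2 ≤ (c / 4)⁻¹ * (pairs N Q).card := by linarith
  rw [← div_eq_inv_mul, le_div_iff₀ (by positivity)] at h5
  linarith

end Pool.Agent.G4
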