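import Pool.Agent.Lib_helper44.G4.Defs

/-!
# G4, block POI: Fourier transform of the Poisson kernel (no citations)
-/

namespace Pool.Agent.G4

open Complex MeasureTheory Filter Topology Set
open scoped FourierTransform

/-- `exp (-η|v|)` -/
noncomputable def poi_f (η : ℝ) (v : ℝ) : ℂ := (Real.exp (-η * |v|) : ℂ)

theorem poi_f_Ioi {η v : ℝ} (z : ℂ) (hv : v ∈ Ioi (0 : ℝ)) :
    poi_f η v * cexp (z * v) = cexp ((z - η) * v) := by
  unfold poi_f
  rw [abs_of_pos hv, Complex.ofReal_exp, ← Complex.exp_add]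
  congr 1
  push_cast
  ring

theorem poi_f_Iic {η v : ℝ} (z : ℂ) (hv : v ∈ Iic (0 : ℝ)) :
    poi_f η v * cexp (z * v) = cexp ((z + η) * v) := by
  unfold poi_f
  rw [abs_of_nonpos hv, Complex.ofReal_exp, ← Complex.exp_add]
  congr 1
  push_cast
  ring

theorem poi_int {η : ℝ} (hη : 0 < η) (x : ℝ) :
    Integrable (fun v : ℝ => poi_f η v * cexp ((x * I : ℂ) * v)) ∧
    ∫ v : ℝ, poi_f η v * cexp ((x * I : ℂ) * v) = ((2 * η / (η ^ 2 + x ^ 2) : ℝ) : ℂ) := by
  have h1 : ((x * I - η : ℂ)).re < 0 := by simp [hη]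
  have h2 : 0 < ((x * I + η : ℂ)).re := by simp [hη]
  have i1 : IntegrableOn (fun v : ℝ => poi_f η v * cexp ((x * I : ℂ) * v)) (Ioi 0) :=
    (integrableOn_exp_mul_complex_Ioi h1 0).congr_fun (fun v hv => (poi_f_Ioi _ hv).symm)
      measurableSet_Ioi
  have i2 : IntegrableOn (fun v : ℝ => poi_f η v * cexp ((x * I : ℂ) * v)) (Iic 0) :=
    (integrableOn_exp_mul_complex_Iic h2 0).congr_fun (fun v hv => (poi_f_Iic _ hv).symm)
      measurableSet_Iic
  have i3 : Integrable (fun v : ℝ => poi_f η v * cexp ((x * I : ℂ) * v)) := by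
    rw [← integrableOn_univ, ← Iic_union_Ioi (a := (0 : ℝ))]
    exact i2.union i1
  refine ⟨i3, ?_⟩
  rw [← intervalIntegral.integral_Iic_add_Ioi (b := (0 : ℝ)) i2 i1,
    setIntegral_congr_fun measurableSet_Iic (fun v hv => poi_f_Iic (η := η) (x * I : ℂ) hv),
    setIntegral_congr_fun measurableSet_Ioi (fun v hv => poi_f_Ioi (η := η) (x * I : ℂ) hv),
    integral_exp_mul_complex_Iic h2, integral_exp_mul_complex_Ioi h1]
  simp only [ofReal_zero, mul_zero, Complex.exp_zero]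
  have n1 : (x * I - η : ℂ) ≠ 0 := fun h => by rw [h] at h1; simp at h1
  have n2 : (x * I + η : ℂ) ≠ 0 := fun h => by rw [h] at h2; simp at h2
  have n3 : ((η : ℂ) ^ 2 + (x : ℂ) ^ 2) ≠ 0 := by
    have : (η ^ 2 + x ^ 2 : ℝ) ≠ 0 := by positivity
    exact_mod_cast this
  push_cast
  field_simp
  ring_nf
  simp only [I_sq]
  ring

/-- POI: Fourier transform of the Poisson kernel -/
theorem poisson_ft_pr {η : ℝ} (hη : 0 < η) (t u : ℝ) :
    ∫ s : ℝ, ((η / (Real.pi * ((t - s) ^ 2 + η ^ 2)) : ℝ) : ℂ) * cexp (s * u * I) =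
      cexp (t * u * I) * Real.exp (-η * |u|) := by
  have hπ := Real.pi_pos
  have hfi : Integrable (poi_f η) := by
    have := (poi_int hη 0).1
    simpa using this
  have hfc : Continuous (poi_f η) := by
    unfold poi_f
    fun_prop
  have hF : 𝓕 (poi_f η) = fun x : ℝ => ((2 * η / (η ^ 2 + (2 * Real.pi * x) ^ 2) : ℝ) : ℂ) := by
    funext x
    rw [Real.fourier_real_eq_integral_exp_smul]
    have h1 := (poi_int hη (-(2 * Real.pi * x))).2
    rw [show (η ^ 2 + (2 * Real.pi * x) ^ 2) = (η ^ 2 + (-(2 * Real.pi * x)) ^ 2) by ring, ← h1]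
    apply integral_congr_ae
    filter_upwards with v
    rw [smul_eq_mul, mul_comm]
    congr 2
    push_cast
    ring
  have hFi : Integrable (fun x : ℝ => ((2 * η / (η ^ 2 + (2 * Real.pi * x) ^ 2) : ℝ) : ℂ)) := by
    have h1 : Integrable fun x : ℝ => (1 + (2 * Real.pi / η * x) ^ 2)⁻¹ :=
      integrable_inv_one_add_sq.comp_mul_left' (by positivity)
    have h2 := h1.const_mul (2 / η)
    have h3 : Integrable fun x : ℝ => 2 * η / (η ^ 2 + (2 * Real.pi * x) ^ 2) := by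
      refine h2.congr (Eventually.of_forall fun x => ?_)
      have e1 : (1 + (2 * Real.pi / η * x) ^ 2) = (η ^ 2 + (2 * Real.pi * x) ^ 2) / η ^ 2 := by
        field_simp
      have : η ^ 2 + (2 * Real.pi * x) ^ 2 ≠ 0 := by positivity
      simp only
      rw [e1, inv_div]
      field_simp
    exact h3.ofReal
  have hinv : 𝓕⁻ (𝓕 (poi_f η)) = poi_f η := by
    apply hfc.fourierInv_fourier_eq hfi
    rw [hF]; exact hFi
  have h1 : ∫ x : ℝ, cexp ((2 * Real.pi * (x * u) : ℝ) * I) *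
      ((2 * η / (η ^ 2 + (2 * Real.pi * x) ^ 2) : ℝ) : ℂ) = poi_f η u := by
    rw [← congrFun hinv u, Real.fourierInv_eq']
    apply integral_congr_ae
    filter_upwards with x
    rw [hF, smul_eq_mul]
    simp only [RCLike.inner_apply, conj_trivial]
    rw [mul_comm u x]
  -- substitution `y = 2 π x`
  set g : ℝ → ℂ := fun y => cexp (y * u * I) * ((2 * η / (η ^ 2 + y ^ 2) : ℝ) : ℂ) with hg
  have h2 : ∫ x : ℝ, g (2 * Real.pi * x) = poi_f η u := by
    rw [← h1]
    apply integral_congr_ae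
    filter_upwards with x
    simp only [hg]
    congr 2
    push_cast
    ring
  rw [Measure.integral_comp_mul_left] at h2
  have h3 : ∫ y : ℝ, g y = (2 * Real.pi : ℝ) • poi_f η u := by
    rw [← h2, smul_smul, abs_of_pos (by positivity : 0 < (2 * Real.pi)⁻¹),
      mul_inv_cancel₀ (by positivity), one_smul]
  -- shift
  have h4 : ∫ s : ℝ, ((η / (Real.pi * ((t - s) ^ 2 + η ^ 2)) : ℝ) : ℂ) * cexp (s * u * I) =
      ∫ s : ℝ, (fun y : ℝ => (((2 * Real.pi)⁻¹ : ℝ) : ℂ) * cexp (t * u * I) * g y) (s - t) := by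
    apply integral_congr_ae
    filter_upwards with s
    simp only [hg]
    have e1 : cexp (s * u * I) = cexp (t * u * I) * cexp (((s - t : ℝ) : ℂ) * u * I) := by
      rw [← Complex.exp_add]
      congr 1
      push_cast
      ring
    rw [e1]
    have e2 : ((η / (Real.pi * ((t - s) ^ 2 + η ^ 2)) : ℝ) : ℂ) =
        (((2 * Real.pi)⁻¹ : ℝ) : ℂ) * ((2 * η / (η ^ 2 + (s - t) ^ 2) : ℝ) : ℂ) := by
      rw [← Complex.ofReal_mul]
      congr 1
      have : (t - s) ^ 2 + η ^ 2 ≠ 0 := by positivity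
      have : η ^ 2 + (s - t) ^ 2 ≠ 0 := by positivity
      rw [show (t - s) ^ 2 + η ^ 2 = η ^ 2 + (s - t) ^ 2 by ring]
      field_simp
    rw [e2]
    ring
  rw [h4, integral_sub_right_eq_self (fun y : ℝ => (((2 * Real.pi)⁻¹ : ℝ) : ℂ) *
    cexp (t * u * I) * g y) t, integral_const_mul, h3]
  unfold poi_f
  rw [Complex.real_smul]
  have : ((2 * Real.pi : ℝ) : ℂ) ≠ 0 := by
    have : (2 * Real.pi : ℝ) ≠ 0 := by positivity
    exact_mod_cast this
  push_cast
  have hpc : (Real.pi : ℂ) ≠ 0 := by exact_mod_cast hπ.ne'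
  field_simp

end Pool.Agent.G4
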